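import Mathlib
import Pool.Agent.Lib.MP_3ad381_lc.Main
import Pool.Agent.Lib.MP_3ad381_lc.Sent

/-!
# No extension of `ACA_0` proves its own `Π^1_1`-soundness
-/

namespace Pool.Agent.Results.MP_3ad381_lc.NoSelfReflection

open Pool.Agent.Lib.MP_3ad381_lc

/-- `sent` and `tr` are adequate: `ACA_0` proves that `sent` holds of each `Π^1_1` sentence, and
`tr` is a truth predicate for `Π^1_1` sentences, provably in `ACA_0`. -/
def Adequate (sent tr : Fm) : Prop :=
  ∀ φ, IsPi11Sentence φ → Proves {ψ | ACA0 ψ} (inst sent φ.code) ∧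
    Proves {ψ | ACA0 ψ} ((inst tr φ.code).iff φ)

/-- **No `Π^1_1`-sound, `Σ^1_1`-definable extension of `ACA_0` proves its own
`Π^1_1`-soundness.** Correct arithmetizations of provability exist, and so do adequate formulas
`sent`, `tr` (with `sent` defining the set of `Π^1_1` sentences and `tr` of the form `∀X ∀Y θ`,
`θ` arithmetical); and for every arithmetization of provability `P` and all adequate `sent`, `tr`
no `Π^1_1`-sound, `Σ^1_1`-definable extension of `ACA_0` proves its own `Π^1_1`-soundness. -/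
theorem result :
    (Nonempty ProofPredicate ∧ ∃ sent tr : Fm, Adequate sent tr ∧
      (∀ n, TrueAt sent n ↔ ∃ φ, IsPi11Sentence φ ∧ n = φ.code) ∧
      ∃ θ : Fm, θ.Arith ∧ tr = θ.allS.allS) ∧
    ∀ (P : ProofPredicate) (sent tr : Fm), Adequate sent tr →
      ¬ ∃ T : Set Fm, (∀ ψ ∈ T, ψ.Sentence) ∧ ExtendsACA0 T ∧ Pi11Sound T ∧
        ∃ τ : Fm, IsSigma11 τ ∧ τ.Closed 1 0 ∧ Defines τ T ∧
          Proves T (P.Reflection sent tr τ) := by
  refine ⟨⟨exists_proofPredicate, ?_⟩, fun P sent tr h =>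
    no_self_reflection P sent tr (fun φ hφ => (h φ hφ).1) (fun φ hφ => (h φ hφ).2)⟩
  obtain ⟨sent, _, h1, h2⟩ := exists_sent
  obtain ⟨tr, _, h3, h4⟩ := exists_truth
  exact ⟨sent, tr, fun φ hφ => ⟨h2 φ hφ, h4 φ hφ⟩, h1, h3⟩

end Pool.Agent.Results.MP_3ad381_lc.NoSelfReflection
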